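import Mathlib

/-!
Tournaments with large partial order decomposition number all of whose small subtournaments have
partial order decomposition number at most three.
-/

namespace Pool.Agent.Results.MP_b90bcc_co.LocalPod

/-- A tournament on the vertex type `V`. -/
structure Tourn (V : Type) where
  /-- `arc u v` means that `(u,v)` is an arc. -/
  arc : V → V → Prop
  /-- there is no loop -/
  loopless : ∀ v, ¬ arc v v
  /-- exactly one of `(u,v)`, `(v,u)` is an arc -/
  total : ∀ u v, u ≠ v → (arc u v ↔ ¬ arc v u)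

variable {V : Type}

/-- The subtournament induced on `X`. -/
def induce (T : Tourn V) (X : Finset V) : Tourn X where
  arc := fun u v => T.arc u.1 v.1
  loopless := fun v => T.loopless v.1
  total := fun u v h => T.total u.1 v.1 (fun e => h (Subtype.ext e))

/-- A set of pairs is transitive. -/
def TransSet (P : Set (V × V)) : Prop :=
  ∀ a b c, (a, b) ∈ P → (b, c) ∈ P → (a, c) ∈ P

/-- `T` has a partial order decomposition into `m` sets. -/
def HasPod (T : Tourn V) (m : ℕ) : Prop :=
  ∃ P : Fin m → Set (V × V), (∀ i, TransSet (P i)) ∧ (⋃ i, P i) = {p | T.arc p.1 p.2}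

/-- The partial order decomposition number. -/
noncomputable def pod (T : Tourn V) : ℕ := sInf {m | HasPod T m}

lemma hasPod_mono {T : Tourn V} {m n : ℕ} (h : m ≤ n) (hm : HasPod T m) : HasPod T n := by
  obtain ⟨P, h1, h2⟩ := hm
  refine ⟨fun i => if hi : i.val < m then P ⟨i.val, hi⟩ else ∅, ?_, ?_⟩
  · intro i
    dsimp only
    split_ifs
    · exact h1 _
    · rintro a b c ⟨⟩
  · rw [← h2]
    ext p
    simp only [Set.mem_iUnion]
    constructor
    · rintro ⟨i, hi⟩
      split_ifs at hi with h3
      · exact ⟨_, hi⟩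
      · exact absurd hi (Set.notMem_empty p)
    · rintro ⟨i, hi⟩
      refine ⟨⟨i.val, lt_of_lt_of_le i.isLt h⟩, ?_⟩
      rw [dif_pos i.isLt]
      exact hi

lemma exists_hasPod [Fintype V] (T : Tourn V) : ∃ m, HasPod T m := by
  classical
  let e := Fintype.equivFin (V × V)
  refine ⟨Fintype.card (V × V), fun i => {p | T.arc p.1 p.2 ∧ e p = i}, ?_, ?_⟩
  · rintro i a b c ⟨h1, h2⟩ ⟨h3, h4⟩
    have h5 := e.injective (h2.trans h4.symm)
    simp only [Prod.mk.injEq] at h5
    have h1' : T.arc a b := h1
    rw [h5.1] at h1'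
    exact absurd h1' (T.loopless b)
  · ext p
    simp only [Set.mem_iUnion, Set.mem_ofPred_eq]
    constructor
    · rintro ⟨_, h, _⟩
      exact h
    · intro h
      exact ⟨e p, h, rfl⟩

lemma lt_pod [Fintype V] {T : Tourn V} {m : ℕ} (h : ¬ HasPod T m) : m < pod T := by
  have h1 : HasPod T (pod T) := Nat.sInf_mem (exists_hasPod T)
  by_contra h2
  exact h (hasPod_mono (not_lt.1 h2) h1)

/-- The shift graph lemma. -/
lemma shift_lemma : ∀ (t : ℕ) (κ : Type) [Finite κ], ∃ M : ℕ, ∀ c : (Fin (t + 1) → ℕ) → κ,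
    ∃ a : Fin (t + 2) → ℕ, StrictMono a ∧ (∀ i, a i < M) ∧
      c (fun i => a i.castSucc) = c (fun i => a i.succ) := by
  intro t
  induction t with
  | zero =>
    intro κ _
    have := Fintype.ofFinite κ
    refine ⟨Fintype.card κ + 1, fun c => ?_⟩
    have hcard : Fintype.card κ < Fintype.card (Fin (Fintype.card κ + 1)) := by simp
    obtain ⟨x, y, hxy, hc⟩ := Fintype.exists_ne_map_eq_of_card_lt
      (fun x : Fin (Fintype.card κ + 1) => c (fun _ => x.val)) hcard
    have main : ∀ x y : Fin (Fintype.card κ + 1), x.val < y.val →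
        c (fun _ => x.val) = c (fun _ => y.val) → ∃ a : Fin 2 → ℕ, StrictMono a ∧
          (∀ i, a i < Fintype.card κ + 1) ∧
          c (fun i : Fin 1 => a i.castSucc) = c (fun i : Fin 1 => a i.succ) := by
      intro x y hlt hc
      refine ⟨![x.val, y.val], ?_, ?_, ?_⟩
      · intro i j hij
        fin_cases i <;> fin_cases j <;> simp at hij ⊢
        exact hlt
      · intro i
        fin_cases i
        · exact x.isLt
        · exact y.isLt
      · have e1 : (fun i : Fin 1 => (![x.val, y.val] : Fin 2 → ℕ) i.castSucc) =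
            fun _ => x.val := by
          funext i
          fin_cases i
          rfl
        have e2 : (fun i : Fin 1 => (![x.val, y.val] : Fin 2 → ℕ) i.succ) =
            fun _ => y.val := by
          funext i
          fin_cases i
          rfl
        rw [e1, e2]
        exact hc
    rcases lt_or_gt_of_ne (fun h => hxy (Fin.ext h)) with h | h
    · exact main x y h hc
    · exact main y x h hc.symm
  | succ t ih =>
    intro κ _
    obtain ⟨M, hM⟩ := ih (Set κ)
    refine ⟨M, fun c => ?_⟩
    obtain ⟨a, ha, hb, hc⟩ := hM (fun b => {col | ∃ x, b (Fin.last t) < x ∧ x < M ∧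
      c (Fin.snoc b x : Fin (t + 2) → ℕ) = col})
    have h1 : c a ∈ {col | ∃ x, (fun i : Fin (t + 1) => a i.castSucc) (Fin.last t) < x ∧ x < M ∧
        c (Fin.snoc (fun i : Fin (t + 1) => a i.castSucc) x : Fin (t + 2) → ℕ) = col} := by
      refine ⟨a (Fin.last (t + 1)), ?_, hb _, ?_⟩
      · apply ha
        exact Fin.castSucc_lt_last _
      · congr 1
        exact Fin.snoc_init_self a
    rw [hc] at h1
    obtain ⟨x, hx1, hx2, hx3⟩ := h1
    refine ⟨(Fin.snoc a x : Fin (t + 3) → ℕ), ?_, ?_, ?_⟩
    · have hx1' : a (Fin.last (t + 1)) < x := hx1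
      rw [Fin.strictMono_iff_lt_succ]
      intro i
      refine Fin.lastCases ?_ (fun j => ?_) i
      · rw [Fin.snoc_castSucc, Fin.succ_last, Fin.snoc_last]
        exact hx1'
      · rw [Fin.snoc_castSucc, Fin.succ_castSucc, Fin.snoc_castSucc]
        exact ha (Fin.castSucc_lt_succ)
    · intro i
      refine Fin.lastCases ?_ (fun j => ?_) i
      · rw [Fin.snoc_last]
        exact hx2
      · rw [Fin.snoc_castSucc]
        exact hb j
    · have e1 : (fun i : Fin (t + 2) => (Fin.snoc a x : Fin (t + 3) → ℕ) i.castSucc) = a := by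
        funext i
        rw [Fin.snoc_castSucc]
      have e2 : (fun i : Fin (t + 2) => (Fin.snoc a x : Fin (t + 3) → ℕ) i.succ) =
          (Fin.snoc (fun i : Fin (t + 1) => a i.succ) x : Fin (t + 2) → ℕ) := by
        funext i
        refine Fin.lastCases ?_ (fun j => ?_) i
        · rw [Fin.succ_last, Fin.snoc_last, Fin.snoc_last]
        · rw [Fin.succ_castSucc, Fin.snoc_castSucc, Fin.snoc_castSucc]
      rw [e1, e2]
      exact hx3.symm

/-- Short odd closed walks are the only obstruction to being bipartite. -/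
lemma colorable_of_short {α : Type} [Fintype α] (G : SimpleGraph α)
    (h : ∀ u, ∀ w : G.Walk u u, w.length ≤ 2 * Fintype.card α → Even w.length) :
    G.Colorable 2 := by
  classical
  apply SimpleGraph.colorable_iff_forall_connectedComponent.2
  intro c
  obtain ⟨r, hr⟩ := c.nonempty_supp
  have hp : ∀ a : c, ∃ w : (c.toSimpleGraph).Walk ⟨r, hr⟩ a, w.length < Fintype.card α := by
    intro a
    have w := (c.connected_toSimpleGraph ⟨r, hr⟩ a).some
    refine ⟨w.toPath.1, ?_⟩
    refine lt_of_lt_of_le w.toPath.2.length_lt ?_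
    exact Fintype.card_subtype_le _
  choose p hp using hp
  use fun a ↦ Fin.ofNat 2 (p a).length
  intro a b hab he
  have h1 := h _ ((((p a).concat hab).append (p b).reverse).map c.toSimpleGraph_hom)
  rw [SimpleGraph.Walk.length_map, SimpleGraph.Walk.length_append,
    SimpleGraph.Walk.length_concat, SimpleGraph.Walk.length_reverse] at h1
  have h2 := hp a
  have h3 := hp b
  have h4 := h1 (by omega)
  have h5 : (p a).length % 2 = (p b).length % 2 := by
    simp_rw [← Fin.val_natCast, ← Fin.ofNat_eq_cast]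
    rw [he]
  rw [Nat.even_iff] at h4
  omega

/-- Vertices: increasing tuples. -/
abbrev Tup (n M : ℕ) : Type := {f : Fin (n + 1) → Fin M // StrictMono f}

/-- `v` is the shift of `u` -/
def Shift {n M : ℕ} (u v : Tup n M) : Prop := ∀ i : Fin n, v.1 i.castSucc = u.1 i.succ

/-- the back edges -/
def Bk {n M : ℕ} (u v : Tup n M) : Prop := Shift u v ∨ Shift v u

/-- rank of a vertex, refining the order by first entries -/
noncomputable def rank {n M : ℕ} (u : Tup n M) : ℕ :=
  (u.1 0).val * Fintype.card (Tup n M) + (Fintype.equivFin (Tup n M) u).val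

lemma rank_lt {n M : ℕ} {u v : Tup n M} (h : u.1 0 < v.1 0) : rank u < rank v := by
  unfold rank
  have h1 := (Fintype.equivFin (Tup n M) u).isLt
  have h2 : (u.1 0).val + 1 ≤ (v.1 0).val := h
  have h3 := Nat.mul_le_mul_right (Fintype.card (Tup n M)) h2
  rw [add_mul, one_mul] at h3
  omega

lemma rank_inj {n M : ℕ} {u v : Tup n M} (h : rank u = rank v) : u = v := by
  rcases lt_trichotomy (u.1 0) (v.1 0) with h1 | h1 | h1
  · exact absurd h (rank_lt h1).ne
  · unfold rank at h
    rw [h1] at h
    have h2 := Nat.add_left_cancel h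
    exact (Fintype.equivFin (Tup n M)).injective (Fin.ext h2)
  · exact absurd h.symm (rank_lt h1).ne

/-- The tournament: transitive in the order of the ranks, with the shift pairs reversed. -/
noncomputable def tour (n M : ℕ) : Tourn (Tup n M) where
  arc := fun u v => (rank u < rank v ∧ ¬ Bk u v) ∨ (rank v < rank u ∧ Bk u v)
  loopless := by
    intro v h
    rcases h with h | h
    · exact lt_irrefl _ h.1
    · exact lt_irrefl _ h.1
  total := by
    intro u v huv
    have h1 : rank u ≠ rank v := fun h => huv (rank_inj h)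
    have h2 : Bk u v ↔ Bk v u := by
      unfold Bk
      exact or_comm
    rw [h2]
    by_cases h3 : Bk v u
    · simp only [h3, not_true, and_false, false_or, and_true]
      omega
    · simp only [h3, not_false_iff, and_true, and_false, or_false]
      omega

lemma not_hasPod (n : ℕ) (hn : 1 ≤ n) (m : ℕ) : ∃ M, ¬ HasPod (tour n M) m := by
  obtain ⟨M, hM⟩ := shift_lemma (2 * n + 1) (Set (Fin m))
  refine ⟨M, ?_⟩
  rintro ⟨P, hP1, hP2⟩
  obtain ⟨a, ha, hb, hc⟩ := hM (fun e => {i | ∃ u v : Tup n M,
    (∀ j : Fin (n + 1), (u.1 j).val = e ⟨2 * j.val, by omega⟩) ∧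
    (∀ j : Fin (n + 1), (v.1 j).val = e ⟨2 * j.val + 1, by omega⟩) ∧ (u, v) ∈ P i})
  let u : Tup n M := ⟨fun j => ⟨a ⟨2 * j.val, by omega⟩, hb _⟩, fun i j hij => by
    show a _ < a _
    apply ha
    have : i.val < j.val := hij
    show 2 * i.val < 2 * j.val
    omega⟩
  let v : Tup n M := ⟨fun j => ⟨a ⟨2 * j.val + 1, by omega⟩, hb _⟩, fun i j hij => by
    show a _ < a _
    apply ha
    have : i.val < j.val := hij
    show 2 * i.val + 1 < 2 * j.val + 1
    omega⟩
  let w : Tup n M := ⟨fun j => ⟨a ⟨2 * j.val + 2, by omega⟩, hb _⟩, fun i j hij => by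
    show a _ < a _
    apply ha
    have : i.val < j.val := hij
    show 2 * i.val + 2 < 2 * j.val + 2
    omega⟩
  have huv0 : u.1 0 < v.1 0 := by
    show a _ < a _
    apply ha
    show 0 < 0 + 1
    omega
  have huw0 : u.1 0 < w.1 0 := by
    show a _ < a _
    apply ha
    show 0 < 0 + 2
    omega
  have hvw0 : v.1 0 < w.1 0 := by
    show a _ < a _
    apply ha
    show 0 + 1 < 0 + 2
    omega
  have huv : (tour n M).arc u v := by
    left
    refine ⟨rank_lt huv0, ?_⟩
    rintro (h | h)
    · have h1 := congrArg Fin.val (h ⟨0, hn⟩)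
      have h2 : a ⟨2 * 0 + 1, by omega⟩ = a ⟨2 * (0 + 1), by omega⟩ := h1
      have h3 := ha.injective h2
      simp at h3
    · have h1 := congrArg Fin.val (h ⟨0, hn⟩)
      have h2 : a ⟨2 * 0, by omega⟩ = a ⟨2 * (0 + 1) + 1, by omega⟩ := h1
      have h3 := ha.injective h2
      simp at h3
  have hmem : ∃ i, (u, v) ∈ P i := by
    have : (u, v) ∈ ⋃ i, P i := by
      rw [hP2]
      exact huv
    simpa using this
  obtain ⟨i, hi⟩ := hmem
  have h1 : i ∈ {i | ∃ u v : Tup n M,
    (∀ j : Fin (n + 1), (u.1 j).val =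
      (fun i : Fin (2 * n + 1 + 1) => a i.castSucc) ⟨2 * j.val, by omega⟩) ∧
    (∀ j : Fin (n + 1), (v.1 j).val =
      (fun i : Fin (2 * n + 1 + 1) => a i.castSucc) ⟨2 * j.val + 1, by omega⟩) ∧ (u, v) ∈ P i} :=
    ⟨u, v, fun j => rfl, fun j => rfl, hi⟩
  rw [hc] at h1
  obtain ⟨v', w', hv', hw', hi'⟩ := h1
  have ev : v' = v := by
    apply Subtype.ext
    funext j
    apply Fin.ext
    rw [hv' j]
    rfl
  have ew : w' = w := by
    apply Subtype.ext
    funext j
    apply Fin.ext
    rw [hw' j]
    rfl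
  rw [ev, ew] at hi'
  have h2 := hP1 i u v w hi hi'
  have h3 : (u, w) ∈ ⋃ i, P i := Set.mem_iUnion.2 ⟨i, h2⟩
  rw [hP2] at h3
  have h4 : (tour n M).arc u w := h3
  have h5 : Bk u w := by
    left
    intro j
    apply Fin.ext
    show a _ = a _
    congr 1
  rcases h4 with h4 | h4
  · exact h4.2 h5
  · exact absurd (rank_lt huw0) (not_lt.2 h4.1.le)

/-- the graph of the back edges on a set of vertices -/
def bg {n M : ℕ} (hn : 1 ≤ n) (X : Finset (Tup n M)) : SimpleGraph X where
  Adj := fun u v => Bk u.1 v.1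
  symm := ⟨fun u v h => h.symm⟩
  loopless := ⟨fun u h => by
    have h1 : Shift u.1 u.1 := by
      rcases h with h | h <;> exact h
    have h2 := h1 ⟨0, hn⟩
    have h3 := u.1.2.injective h2
    have h4 := congrArg Fin.val h3
    simp at h4⟩

/-- walks shift the windows -/
lemma walk_shift {n M : ℕ} (hn : 1 ≤ n) (X : Finset (Tup n M)) {u v : X}
    (w : (bg hn X).Walk u v) : ∃ H : ℤ, |H| ≤ w.length ∧ (H - w.length) % 2 = 0 ∧
      ∀ i j : Fin (n + 1), (j.val : ℤ) = i.val + H → w.length ≤ i.val → i.val + w.length ≤ n →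
        v.1.1 i = u.1.1 j := by
  induction w with
  | nil =>
    refine ⟨0, by simp, by simp, ?_⟩
    intro i j h _ _
    have : j = i := Fin.ext (by omega)
    rw [this]
  | @cons u u' v h p ih =>
    obtain ⟨H, h1, h2, h3⟩ := ih
    rw [abs_le] at h1
    rcases h with h | h
    · refine ⟨H + 1, ?_, ?_, ?_⟩
      · rw [SimpleGraph.Walk.length_cons, abs_le]
        push_cast
        omega
      · rw [SimpleGraph.Walk.length_cons]
        push_cast
        omega
      · intro i j hj h4 h5
        rw [SimpleGraph.Walk.length_cons] at h4 h5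
        have hj1 : 1 ≤ j.val := by omega
        have hj2 : j.val ≤ n := by omega
        have h6 := h3 i ⟨j.val - 1, by omega⟩ (by
          show ((j.val - 1 : ℕ) : ℤ) = _
          omega) (by omega) (by omega)
        rw [h6]
        have h7 := h ⟨j.val - 1, by omega⟩
        have e1 : (⟨j.val - 1, by omega⟩ : Fin n).castSucc = (⟨j.val - 1, by omega⟩ : Fin (n + 1)) :=
          rfl
        have e2 : (⟨j.val - 1, by omega⟩ : Fin n).succ = j := Fin.ext (by simp; omega)
        rw [e1, e2] at h7
        exact h7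
    · refine ⟨H - 1, ?_, ?_, ?_⟩
      · rw [SimpleGraph.Walk.length_cons, abs_le]
        push_cast
        omega
      · rw [SimpleGraph.Walk.length_cons]
        push_cast
        omega
      · intro i j hj h4 h5
        rw [SimpleGraph.Walk.length_cons] at h4 h5
        have hj2 : j.val + 1 ≤ n := by omega
        have h6 := h3 i ⟨j.val + 1, by omega⟩ (by
          show ((j.val + 1 : ℕ) : ℤ) = _
          push_cast
          omega) (by omega) (by omega)
        rw [h6]
        have h7 := h ⟨j.val, by omega⟩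
        have e1 : (⟨j.val, by omega⟩ : Fin n).castSucc = j := rfl
        have e2 : (⟨j.val, by omega⟩ : Fin n).succ = (⟨j.val + 1, by omega⟩ : Fin (n + 1)) := rfl
        rw [e1, e2] at h7
        exact h7.symm

lemma bg_colorable {n M k : ℕ} (hn : 1 ≤ n) (hnk : 4 * k ≤ n) (X : Finset (Tup n M))
    (hX : X.card ≤ k) : (bg hn X).Colorable 2 := by
  apply colorable_of_short
  intro u w hw
  have hc : Fintype.card X = X.card := Fintype.card_coe X
  rw [hc] at hw
  by_contra hodd
  rw [Nat.not_even_iff_odd, Nat.odd_iff] at hodd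
  obtain ⟨H, h1, h2, h3⟩ := walk_shift hn X w
  rw [abs_le] at h1
  have h4 := h3 ⟨w.length, by omega⟩ ⟨(w.length + H).toNat, by omega⟩ (by
    show (((w.length + H).toNat : ℕ) : ℤ) = _
    show _ = (w.length : ℤ) + H
    omega) le_rfl (by
    show w.length + w.length ≤ n
    omega)
  have h5 := u.1.2.injective h4
  have h6 : w.length = (w.length + H).toNat := congrArg Fin.val h5
  omega

lemma pod_small {n M k : ℕ} (hn : 1 ≤ n) (hnk : 4 * k ≤ n) (X : Finset (Tup n M))
    (hX : X.card ≤ k) : pod (induce (tour n M) X) ≤ 3 := by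
  obtain ⟨c⟩ := bg_colorable hn hnk X hX
  apply Nat.sInf_le
  refine ⟨![{p | (induce (tour n M) X).arc p.1 p.2 ∧ c p.1 = c p.2},
    {p | (induce (tour n M) X).arc p.1 p.2 ∧ c p.1 = 0 ∧ c p.2 = 1},
    {p | (induce (tour n M) X).arc p.1 p.2 ∧ c p.1 = 1 ∧ c p.2 = 0}], ?_, ?_⟩
  · have fwd : ∀ a b : X, (induce (tour n M) X).arc a b → c a = c b →
        rank a.1 < rank b.1 := by
      intro a b h hab
      rcases h with h | h
      · exact h.1
      · exact absurd hab (c.valid (show (bg hn X).Adj a b from h.2))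
    intro i
    fin_cases i
    · rintro a b d ⟨h1, h2⟩ ⟨h3, h4⟩
      have h5 : c a = c d := h2.trans h4
      refine ⟨?_, h5⟩
      left
      refine ⟨lt_trans (fwd a b h1 h2) (fwd b d h3 h4), ?_⟩
      intro h6
      exact c.valid (show (bg hn X).Adj a d from h6) h5
    · rintro a b d ⟨_, _, h2⟩ ⟨_, h3, _⟩
      have h2' : c b = 1 := h2
      have h3' : c b = 0 := h3
      rw [h2'] at h3'
      exact absurd h3' (by decide)
    · rintro a b d ⟨_, _, h2⟩ ⟨_, h3, _⟩
      have h2' : c b = 0 := h2
      have h3' : c b = 1 := h3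
      rw [h2'] at h3'
      exact absurd h3' (by decide)
  · ext p
    simp only [Set.mem_iUnion]
    constructor
    · rintro ⟨i, hi⟩
      fin_cases i
      · exact hi.1
      · exact hi.1
      · exact hi.1
    · intro hp
      have two : ∀ x : Fin 2, x = 0 ∨ x = 1 := by decide
      rcases two (c p.1) with h1 | h1 <;> rcases two (c p.2) with h2 | h2
      · exact ⟨0, hp, h1.trans h2.symm⟩
      · exact ⟨1, hp, h1, h2⟩
      · exact ⟨2, hp, h1, h2⟩
      · exact ⟨0, hp, h1.trans h2.symm⟩

/-- Tournaments with large `pod` which locally have `pod` at most three. -/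
theorem main (k N : ℕ) : ∃ n M : ℕ, N < pod (tour n M) ∧
    ∀ X : Finset (Tup n M), X.card ≤ k → pod (induce (tour n M) X) ≤ 3 := by
  obtain ⟨M, hM⟩ := not_hasPod (4 * k + 1) (by omega) N
  exact ⟨4 * k + 1, M, lt_pod hM, fun X hX => pod_small (by omega) (by omega) X hX⟩

/-- **Main result.** The negated form of the question, with `s = 4`: there is a `k` such that some
tournament on at most `k` vertices has `pod` at least 4, but for every `N` there is a tournament
with `pod` at least `N` all of whose subtournaments on at most `k` vertices have `pod` less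
than 4. -/
theorem result : ∃ k s : ℕ, 0 < k ∧ 0 < s ∧
    (∃ (V : Type) (_ : Fintype V) (T : Tourn V), Fintype.card V ≤ k ∧ s ≤ pod T) ∧
    ∀ N : ℕ, ∃ (V : Type) (_ : Fintype V) (T : Tourn V), N ≤ pod T ∧
      ∀ X : Finset V, X.card ≤ k → pod (induce T X) < s := by
  obtain ⟨n, M, h1, _⟩ := main 1 3
  refine ⟨Fintype.card (Tup n M) + 1, 4, by omega, by omega,
    ⟨Tup n M, inferInstance, tour n M, by omega, h1⟩, fun N => ?_⟩
  obtain ⟨n', M', h2, h3⟩ := main (Fintype.card (Tup n M) + 1) N
  exact ⟨Tup n' M', inferInstance, tour n' M', h2.le, fun X hX => Nat.lt_succ_of_le (h3 X hX)⟩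

end Pool.Agent.Results.MP_b90bcc_co.LocalPod
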